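import Pool.Agent.Helper61.Tri.Goals

/-!
# SD: strong dichotomy for functions on a grid
-/

set_option autoImplicit false

namespace Pool.Agent.Helper77.Tri

open Pool.Agent.Helper61.Tri

/-- Ramsey for pairs with an arbitrary finite nonempty set of colours. -/
theorem ram (h : Ramsey2) (κ : Type) [Fintype κ] [Nonempty κ] (m : ℕ) :
    ∃ N, ∀ χ : ℕ → ℕ → κ, ∃ (e : ℕ → ℕ) (a : κ),
      (∀ i < m, e i < N) ∧ (∀ i j, i < j → j < m → e i < e j) ∧
      ∀ i j, i < j → j < m → χ (e i) (e j) = a := by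
  classical
  obtain ⟨c, hc⟩ : ∃ c, Fintype.card κ = c + 1 :=
    ⟨Fintype.card κ - 1, (Nat.succ_pred_eq_of_pos Fintype.card_pos).symm⟩
  let E : κ ≃ Fin (c + 1) := Fintype.equivFinOfCardEq hc
  obtain ⟨N, hN⟩ := h c m
  refine ⟨N, fun χ => ?_⟩
  obtain ⟨e, a, h1, h2, h3⟩ := hN (fun i j => E (χ i j))
  refine ⟨e, E.symm a, h1, h2, fun i j hij hj => ?_⟩
  rw [← h3 i j hij hj]
  simp

/-- Two-dimensional Ramsey: all patterns `P i i' j j'` with `i < i'`, `j < j'` agree. -/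
theorem ram2 (h : Ramsey2) (κ : Type) [Fintype κ] [Nonempty κ] (M : ℕ) :
    ∃ N, ∀ P : ℕ → ℕ → ℕ → ℕ → κ, ∃ (ρ γ : ℕ → ℕ) (t : κ),
      (∀ i < M, ρ i < N) ∧ (∀ i < M, γ i < N) ∧
      (∀ i j, i < j → j < M → ρ i < ρ j) ∧ (∀ i j, i < j → j < M → γ i < γ j) ∧
      ∀ a b, a < b → b < M → ∀ c d, c < d → d < M → P (ρ a) (ρ b) (γ c) (γ d) = t := by
  classical
  obtain ⟨N1, hN1⟩ := ram h κ M
  obtain ⟨N2, hN2⟩ := ram h (Fin N1 → Fin N1 → κ) M
  refine ⟨max N1 N2, fun P => ?_⟩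
  obtain ⟨γ, T, g1, g2, g3⟩ := hN2 (fun j j' i i' => P i i' j j')
  obtain ⟨ρ, t, r1, r2, r3⟩ := hN1 (fun i i' =>
    if hh : i < N1 ∧ i' < N1 then T ⟨i, hh.1⟩ ⟨i', hh.2⟩ else Classical.arbitrary κ)
  refine ⟨ρ, γ, t, fun i hi => lt_of_lt_of_le (r1 i hi) (le_max_left _ _),
    fun i hi => lt_of_lt_of_le (g1 i hi) (le_max_right _ _), r2, g2, ?_⟩
  intro a b hab hb c d hcd hd
  have h1 := r3 a b hab hb
  have ha : ρ a < N1 := r1 a (hab.trans hb)
  have hb' : ρ b < N1 := r1 b hb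
  rw [dif_pos ⟨ha, hb'⟩] at h1
  have h2 := congrFun (congrFun (g3 c d hcd hd) ⟨ρ a, ha⟩) ⟨ρ b, hb'⟩
  rw [← h1, ← h2]

theorem sd : Ramsey2 → SD := by
  classical
  intro hR r m
  obtain ⟨N, hN⟩ := ram2 hR (Fin r → Fin r → Bool × Bool × Bool × Bool) (m + 4)
  refine ⟨N, fun V f hf => ?_⟩
  obtain ⟨ρ, γ, t, hρ, hγ, hρm, hγm, ht⟩ := hN (fun i i' j j' l l' =>
    (decide (f l i j = f l' i' j'), decide (f l i j' = f l' i' j), decide (f l i j = f l' i j'),
      decide (f l i j = f l' i' j)))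
  have hb : ∀ l l', ∃ β1 β2 β3 β5 : Prop, ∀ a b, a < b → b < m + 4 → ∀ c d, c < d → d < m + 4 →
      (f l (ρ a) (γ c) = f l' (ρ b) (γ d) ↔ β1) ∧ (f l (ρ a) (γ d) = f l' (ρ b) (γ c) ↔ β2) ∧
      (f l (ρ a) (γ c) = f l' (ρ a) (γ d) ↔ β3) ∧ (f l (ρ a) (γ c) = f l' (ρ b) (γ c) ↔ β5) := by
    intro l l'
    refine ⟨(t l l').1 = true, (t l l').2.1 = true, (t l l').2.2.1 = true,
      (t l l').2.2.2 = true, ?_⟩
    intro a b hab hb c d hcd hd
    have h1 := congrFun (congrFun (ht a b hab hb c d hcd hd) l) l'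
    rw [← h1]
    simp
  have hf' : ∀ a < m + 4, ∀ c < m + 4, ∀ l l', l ≠ l' → f l (ρ a) (γ c) ≠ f l' (ρ a) (γ c) :=
    fun a ha c hc l l' hl => hf _ (hρ a ha) _ (hγ c hc) l l' hl
  -- the statements for different functions
  have k1 : ∀ l l', l ≠ l' → ∀ a b, a < b → b < m + 4 → ∀ c d, c < d → d < m + 4 →
      f l (ρ a) (γ c) ≠ f l' (ρ b) (γ d) := by
    intro l l' hl a b hab hb' c d hcd hd heq
    obtain ⟨β1, β2, β3, β5, hβ⟩ := hb l l'
    have hβ1 : β1 := (hβ a b hab hb' c d hcd hd).1.mp heq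
    have e1 := (hβ 1 2 (by omega) (by omega) 1 2 (by omega) (by omega)).1.mpr hβ1
    have e2 := (hβ 1 3 (by omega) (by omega) 1 3 (by omega) (by omega)).1.mpr hβ1
    have e3 := (hβ 2 3 (by omega) (by omega) 2 3 (by omega) (by omega)).1.mpr hβ1
    exact hf' 2 (by omega) 2 (by omega) l l' hl (e3.trans (e2.symm.trans e1))
  have k2 : ∀ l l', l ≠ l' → ∀ a b, a < b → b < m + 4 → ∀ c d, c < d → d < m + 4 →
      f l (ρ a) (γ d) ≠ f l' (ρ b) (γ c) := by
    intro l l' hl a b hab hb' c d hcd hd heq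
    obtain ⟨β1, β2, β3, β5, hβ⟩ := hb l l'
    have hβ1 : β2 := (hβ a b hab hb' c d hcd hd).2.1.mp heq
    have e1 := (hβ 1 2 (by omega) (by omega) 2 3 (by omega) (by omega)).2.1.mpr hβ1
    have e2 := (hβ 1 3 (by omega) (by omega) 1 3 (by omega) (by omega)).2.1.mpr hβ1
    have e3 := (hβ 2 3 (by omega) (by omega) 1 2 (by omega) (by omega)).2.1.mpr hβ1
    exact hf' 2 (by omega) 2 (by omega) l l' hl (e3.trans (e2.symm.trans e1))
  have k3 : ∀ l l', l ≠ l' → ∀ a b, a < b → b < m + 4 → ∀ c d, c < d → d < m + 4 →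
      f l (ρ a) (γ c) ≠ f l' (ρ a) (γ d) := by
    intro l l' hl a b hab hb' c d hcd hd heq
    obtain ⟨β1, β2, β3, β5, hβ⟩ := hb l l'
    have hβ1 : β3 := (hβ a b hab hb' c d hcd hd).2.2.1.mp heq
    have e1 := (hβ 1 2 (by omega) (by omega) 1 2 (by omega) (by omega)).2.2.1.mpr hβ1
    have e2 := (hβ 1 2 (by omega) (by omega) 1 3 (by omega) (by omega)).2.2.1.mpr hβ1
    have e3 := (hβ 1 2 (by omega) (by omega) 2 3 (by omega) (by omega)).2.2.1.mpr hβ1
    exact hf' 1 (by omega) 2 (by omega) l l' hl (e3.trans (e2.symm.trans e1))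
  have k5 : ∀ l l', l ≠ l' → ∀ a b, a < b → b < m + 4 → ∀ c d, c < d → d < m + 4 →
      f l (ρ a) (γ c) ≠ f l' (ρ b) (γ c) := by
    intro l l' hl a b hab hb' c d hcd hd heq
    obtain ⟨β1, β2, β3, β5, hβ⟩ := hb l l'
    have hβ1 : β5 := (hβ a b hab hb' c d hcd hd).2.2.2.mp heq
    have e1 := (hβ 1 2 (by omega) (by omega) 1 2 (by omega) (by omega)).2.2.2.mpr hβ1
    have e2 := (hβ 1 3 (by omega) (by omega) 1 2 (by omega) (by omega)).2.2.2.mpr hβ1
    have e3 := (hβ 2 3 (by omega) (by omega) 1 2 (by omega) (by omega)).2.2.2.mpr hβ1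
    exact hf' 2 (by omega) 1 (by omega) l l' hl (e3.trans (e2.symm.trans e1))
  refine ⟨fun i => ρ (i + 2), fun i => γ (i + 2), ?_, ?_, ?_, ?_⟩
  · intro i hi
    exact ⟨hρ _ (by omega), hγ _ (by omega)⟩
  · intro i hi j hj hij
    rcases lt_or_gt_of_ne hij with h | h
    · exact ⟨(hρm _ _ (by omega : i + 2 < j + 2) (by omega)).ne,
        (hγm _ _ (by omega : i + 2 < j + 2) (by omega)).ne⟩
    · exact ⟨(hρm _ _ (by omega : j + 2 < i + 2) (by omega)).ne',
        (hγm _ _ (by omega : j + 2 < i + 2) (by omega)).ne'⟩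
  · intro l
    obtain ⟨β1, β2, β3, β5, hβ⟩ := hb l l
    by_cases h1 : β1
    · left
      intro i hi j hj i' hi' j' hj'
      have e1 := (hβ (i + 2) (m + 3) (by omega) (by omega) (j + 2) (m + 3) (by omega)
        (by omega)).1.mpr h1
      have e2 := (hβ (i' + 2) (m + 3) (by omega) (by omega) (j' + 2) (m + 3) (by omega)
        (by omega)).1.mpr h1
      exact e1.trans e2.symm
    by_cases h2 : β2
    · left
      intro i hi j hj i' hi' j' hj'
      have e1 := (hβ (i + 2) (m + 3) (by omega) (by omega) 0 (j + 2) (by omega)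
        (by omega)).2.1.mpr h2
      have e2 := (hβ (i' + 2) (m + 3) (by omega) (by omega) 0 (j' + 2) (by omega)
        (by omega)).2.1.mpr h2
      exact e1.trans e2.symm
    right
    intro i hi j hj i' hi' j' hj' hii hjj heq
    simp only at heq
    rcases lt_or_gt_of_ne hii with h | h <;> rcases lt_or_gt_of_ne hjj with h' | h'
    · exact h1 ((hβ (i + 2) (i' + 2) (by omega) (by omega) (j + 2) (j' + 2) (by omega)
        (by omega)).1.mp heq)
    · exact h2 ((hβ (i + 2) (i' + 2) (by omega) (by omega) (j' + 2) (j + 2) (by omega)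
        (by omega)).2.1.mp heq)
    · exact h2 ((hβ (i' + 2) (i + 2) (by omega) (by omega) (j + 2) (j' + 2) (by omega)
        (by omega)).2.1.mp heq.symm)
    · exact h1 ((hβ (i' + 2) (i + 2) (by omega) (by omega) (j' + 2) (j + 2) (by omega)
        (by omega)).1.mp heq.symm)
  · intro l l' hl i hi j hj i' hi' j' hj' heq
    simp only at heq
    rcases lt_trichotomy i i' with h | h | h
    · rcases lt_trichotomy j j' with h' | h' | h'
      · exact k1 l l' hl (i + 2) (i' + 2) (by omega) (by omega) (j + 2) (j' + 2) (by omega)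
          (by omega) heq
      · subst h'
        exact k5 l l' hl (i + 2) (i' + 2) (by omega) (by omega) (j + 2) (m + 3) (by omega)
          (by omega) heq
      · exact k2 l l' hl (i + 2) (i' + 2) (by omega) (by omega) (j' + 2) (j + 2) (by omega)
          (by omega) heq
    · subst h
      rcases lt_trichotomy j j' with h' | h' | h'
      · exact k3 l l' hl (i + 2) (m + 3) (by omega) (by omega) (j + 2) (j' + 2) (by omega)
          (by omega) heq
      · subst h'
        exact hf' (i + 2) (by omega) (j + 2) (by omega) l l' hl heq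
      · exact k3 l' l hl.symm (i + 2) (m + 3) (by omega) (by omega) (j' + 2) (j + 2) (by omega)
          (by omega) heq.symm
    · rcases lt_trichotomy j j' with h' | h' | h'
      · exact k2 l' l hl.symm (i' + 2) (i + 2) (by omega) (by omega) (j + 2) (j' + 2) (by omega)
          (by omega) heq.symm
      · subst h'
        exact k5 l' l hl.symm (i' + 2) (i + 2) (by omega) (by omega) (j + 2) (m + 3) (by omega)
          (by omega) heq.symm
      · exact k1 l' l hl.symm (i' + 2) (i + 2) (by omega) (by omega) (j' + 2) (j + 2) (by omega)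
          (by omega) heq.symm

end Pool.Agent.Helper77.Tri
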